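import Pool.Agent.N708.MX.Stm2

/-!
# MX/CMP: compression of an asymptotic homomorphism to almost invariant subspaces
(helper170 for helper708)
-/

set_option autoImplicit false

namespace Pool.Agent.N170.MX

open Filter Topology
open Pool.Agent.N708.MX

noncomputable section

section general

variable {E F : Type} [NormedAddCommGroup E] [InnerProductSpace ℂ E] [CompleteSpace E]
  [NormedAddCommGroup F] [InnerProductSpace ℂ F] [CompleteSpace F]

/-- the compression -/
def To (J : E →ₗᵢ[ℂ] F) (u : F →L[ℂ] F) : E →L[ℂ] E :=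
  (ContinuousLinearMap.adjoint J.toContinuousLinearMap) ∘L u ∘L J.toContinuousLinearMap

/-- the part which leaves the subspace -/
def Xo (J : E →ₗᵢ[ℂ] F) (u : F →L[ℂ] F) : E →L[ℂ] F :=
  u ∘L J.toContinuousLinearMap - J.toContinuousLinearMap ∘L To J u

lemma adj_J (J : E →ₗᵢ[ℂ] F) (v : E) :
    ContinuousLinearMap.adjoint J.toContinuousLinearMap (J v) = v := by
  have h := (ContinuousLinearMap.norm_map_iff_adjoint_comp_self J.toContinuousLinearMap).1
    (fun x => J.norm_map x)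
  have h2 := congrArg (fun A : E →L[ℂ] E => A v) h
  exact h2

lemma adj_u {u : F →L[ℂ] F} (hu : ∀ v, ‖u v‖ = ‖v‖) (v : F) :
    ContinuousLinearMap.adjoint u (u v) = v := by
  have h := (ContinuousLinearMap.norm_map_iff_adjoint_comp_self u).1 hu
  have h2 := congrArg (fun A : F →L[ℂ] F => A v) h
  exact h2

lemma adj_le (J : E →ₗᵢ[ℂ] F) (y : F) :
    ‖ContinuousLinearMap.adjoint J.toContinuousLinearMap y‖ ≤ ‖y‖ := by
  have h1 : ‖ContinuousLinearMap.adjoint J.toContinuousLinearMap‖ ≤ 1 := by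
    rw [LinearIsometryEquiv.norm_map]
    exact J.norm_toContinuousLinearMap_le
  calc _ ≤ ‖ContinuousLinearMap.adjoint J.toContinuousLinearMap‖ * ‖y‖ :=
        ContinuousLinearMap.le_opNorm _ _
    _ ≤ 1 * ‖y‖ := by gcongr
    _ = ‖y‖ := one_mul _

lemma Xo_sq (J : E →ₗᵢ[ℂ] F) {u : F →L[ℂ] F} (hu : ∀ v, ‖u v‖ = ‖v‖) :
    ContinuousLinearMap.adjoint (Xo J u) ∘L Xo J u =
      1 - ContinuousLinearMap.adjoint (To J u) ∘L To J u := by
  have e1 : ContinuousLinearMap.adjoint (To J u) =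
      (ContinuousLinearMap.adjoint J.toContinuousLinearMap) ∘L (ContinuousLinearMap.adjoint u) ∘L
        J.toContinuousLinearMap := by
    unfold To
    rw [ContinuousLinearMap.adjoint_comp, ContinuousLinearMap.adjoint_comp,
      ContinuousLinearMap.adjoint_adjoint, ContinuousLinearMap.comp_assoc]
  have e2 : ContinuousLinearMap.adjoint (Xo J u) =
      (ContinuousLinearMap.adjoint J.toContinuousLinearMap) ∘L (ContinuousLinearMap.adjoint u) -
        ContinuousLinearMap.adjoint (To J u) ∘L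
          (ContinuousLinearMap.adjoint J.toContinuousLinearMap) := by
    unfold Xo
    rw [map_sub, ContinuousLinearMap.adjoint_comp, ContinuousLinearMap.adjoint_comp]
  ext v
  rw [e2]
  have a1 : Xo J u v = u (J v) - J (To J u v) := rfl
  have a2 : To J u v = ContinuousLinearMap.adjoint J.toContinuousLinearMap (u (J v)) := rfl
  have a3 : ∀ z : E, ContinuousLinearMap.adjoint (To J u) z =
      ContinuousLinearMap.adjoint J.toContinuousLinearMap
        (ContinuousLinearMap.adjoint u (J z)) := by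
    intro z
    rw [e1]
    rfl
  show ContinuousLinearMap.adjoint J.toContinuousLinearMap
      (ContinuousLinearMap.adjoint u (Xo J u v)) - ContinuousLinearMap.adjoint (To J u)
        (ContinuousLinearMap.adjoint J.toContinuousLinearMap (Xo J u v)) =
      v - ContinuousLinearMap.adjoint (To J u) (To J u v)
  rw [a1, map_sub, map_sub, map_sub, adj_u hu, adj_J, adj_J, ← a2, sub_self, map_zero, sub_zero,
    a3]

lemma Xo_le (J : E →ₗᵢ[ℂ] F) (u : F →L[ℂ] F) (v w : E) :
    ‖Xo J u v‖ ≤ 2 * ‖u (J v) - J w‖ := by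
  have e : Xo J u v = (u (J v) - J w) -
      J (ContinuousLinearMap.adjoint J.toContinuousLinearMap (u (J v) - J w)) := by
    have a1 : Xo J u v = u (J v) - J (ContinuousLinearMap.adjoint J.toContinuousLinearMap
      (u (J v))) := rfl
    rw [a1, map_sub, map_sub, adj_J]
    abel
  rw [e]
  refine (norm_sub_le _ _).trans ?_
  rw [J.norm_map]
  have := adj_le J (u (J v) - J w)
  linarith

end general

/-- the isometry onto the subspace -/
def JJ {d : ℕ} (W : Submodule ℂ (EuclideanSpace ℂ (Fin d))) :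
    EuclideanSpace ℂ (Fin (Module.finrank ℂ W)) →ₗᵢ[ℂ] EuclideanSpace ℂ (Fin d) :=
  W.subtypeₗᵢ.comp (stdOrthonormalBasis ℂ W).repr.symm.toLinearIsometry

lemma JJ_mem {d : ℕ} (W : Submodule ℂ (EuclideanSpace ℂ (Fin d)))
    (v : EuclideanSpace ℂ (Fin (Module.finrank ℂ W))) : JJ W v ∈ W := by
  unfold JJ
  exact Submodule.coe_mem _

lemma JJ_surj {d : ℕ} (W : Submodule ℂ (EuclideanSpace ℂ (Fin d)))
    {w : EuclideanSpace ℂ (Fin d)} (hw : w ∈ W) : ∃ v, JJ W v = w := by
  refine ⟨(stdOrthonormalBasis ℂ W).repr ⟨w, hw⟩, ?_⟩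
  unfold JJ
  simp

lemma op_norm {d : ℕ} (u : Matrix.unitaryGroup (Fin d) ℂ) (v : EuclideanSpace ℂ (Fin d)) :
    ‖op u v‖ = ‖v‖ := by
  have h1 : star (op u) * op u = 1 := by
    unfold op
    rw [← map_star, ← map_mul, Matrix.UnitaryGroup.star_mul_self u, map_one]
  exact (ContinuousLinearMap.norm_map_iff_adjoint_comp_self (op u)).2 h1 v

/-- the matrix of the compression -/
def Tm {d : ℕ} (W : Submodule ℂ (EuclideanSpace ℂ (Fin d))) (u : Matrix.unitaryGroup (Fin d) ℂ) :
    Matrix (Fin (Module.finrank ℂ W)) (Fin (Module.finrank ℂ W)) ℂ :=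
  (Matrix.toEuclideanCLM (𝕜 := ℂ)).symm (To (JJ W) (op u))

lemma opn_Tm {d : ℕ} (W : Submodule ℂ (EuclideanSpace ℂ (Fin d)))
    (u : Matrix.unitaryGroup (Fin d) ℂ) :
    opn ((Tm W u).conjTranspose * Tm W u - 1) = ‖Xo (JJ W) (op u)‖ * ‖Xo (JJ W) (op u)‖ := by
  unfold opn
  rw [← Matrix.star_eq_conjTranspose, map_sub, map_mul, map_star, map_one]
  have h1 : Matrix.toEuclideanCLM (𝕜 := ℂ) (Tm W u) = To (JJ W) (op u) := by
    unfold Tm
    exact StarAlgEquiv.apply_symm_apply _ _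
  rw [h1, ← ContinuousLinearMap.norm_adjoint_comp_self, Xo_sq (JJ W) (op_norm u), ← norm_neg,
    neg_sub]
  rfl

open scoped Classical in
/-- the unitary matrix close to the compression -/
def Up (hP : S_POLAR) {d : ℕ} (W : Submodule ℂ (EuclideanSpace ℂ (Fin d)))
    (u : Matrix.unitaryGroup (Fin d) ℂ) : Matrix.unitaryGroup (Fin (Module.finrank ℂ W)) ℂ :=
  if h : opn ((Tm W u).conjTranspose * Tm W u - 1) ≤ 1 / 2 then
    Classical.choose (hP _ (Tm W u) _ (norm_nonneg _) h le_rfl) else 1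

lemma Up_le (hP : S_POLAR) {d : ℕ} (W : Submodule ℂ (EuclideanSpace ℂ (Fin d)))
    (u : Matrix.unitaryGroup (Fin d) ℂ) (h : opn ((Tm W u).conjTranspose * Tm W u - 1) ≤ 1 / 2) :
    opn (Tm W u - (Up hP W u).val) ≤ opn ((Tm W u).conjTranspose * Tm W u - 1) := by
  unfold Up
  rw [dif_pos h]
  exact Classical.choose_spec (hP _ (Tm W u) _ (norm_nonneg _) h le_rfl)

/-- the main estimate -/
lemma est (hP : S_POLAR) {d : ℕ} (W : Submodule ℂ (EuclideanSpace ℂ (Fin d)))
    (u : Matrix.unitaryGroup (Fin d) ℂ) {δ : ℝ} (hδ : 0 ≤ δ) (hδ1 : δ ≤ 1 / 4)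
    (h : ∀ v ∈ W, ∃ w ∈ W, ‖op u v - w‖ ≤ δ * ‖v‖)
    (v : EuclideanSpace ℂ (Fin (Module.finrank ℂ W))) :
    ‖op u (JJ W v) - JJ W (op (Up hP W u) v)‖ ≤ 3 * δ * ‖v‖ := by
  have hX : ‖Xo (JJ W) (op u)‖ ≤ 2 * δ := by
    refine ContinuousLinearMap.opNorm_le_bound _ (by positivity) fun x => ?_
    obtain ⟨w, hw, hw2⟩ := h (JJ W x) (JJ_mem W x)
    obtain ⟨y, rfl⟩ := JJ_surj W hw
    refine (Xo_le (JJ W) (op u) x y).trans ?_
    rw [(JJ W).norm_map] at hw2
    linarith
  have hX0 : 0 ≤ ‖Xo (JJ W) (op u)‖ := norm_nonneg _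
  have hsq : ‖Xo (JJ W) (op u)‖ * ‖Xo (JJ W) (op u)‖ ≤ δ := by
    calc _ ≤ (2 * δ) * (2 * δ) := by gcongr
      _ ≤ δ := by nlinarith
  have h1 : opn ((Tm W u).conjTranspose * Tm W u - 1) ≤ 1 / 2 := by
    rw [opn_Tm]
    linarith
  have h2 := Up_le hP W u h1
  rw [opn_Tm] at h2
  have h3 : ‖To (JJ W) (op u) v - op (Up hP W u) v‖ ≤ δ * ‖v‖ := by
    have e : To (JJ W) (op u) v - op (Up hP W u) v =
        Matrix.toEuclideanCLM (𝕜 := ℂ) (Tm W u - (Up hP W u).val) v := by
      rw [map_sub]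
      have h1 : Matrix.toEuclideanCLM (𝕜 := ℂ) (Tm W u) = To (JJ W) (op u) := by
        unfold Tm
        exact StarAlgEquiv.apply_symm_apply _ _
      rw [h1]
      rfl
    rw [e]
    refine (ContinuousLinearMap.le_opNorm _ _).trans ?_
    have h4 : ‖Matrix.toEuclideanCLM (𝕜 := ℂ) (Tm W u - (Up hP W u).val)‖ ≤ δ := h2.trans hsq
    gcongr
  have e2 : op u (JJ W v) - JJ W (op (Up hP W u) v) =
      Xo (JJ W) (op u) v + JJ W (To (JJ W) (op u) v - op (Up hP W u) v) := by
    have a1 : Xo (JJ W) (op u) v = op u (JJ W v) - JJ W (To (JJ W) (op u) v) := rfl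
    rw [a1, map_sub]
    abel
  rw [e2]
  refine (norm_add_le _ _).trans ?_
  rw [(JJ W).norm_map]
  have h5 : ‖Xo (JJ W) (op u) v‖ ≤ 2 * δ * ‖v‖ :=
    (ContinuousLinearMap.le_opNorm _ _).trans (by gcongr)
  linarith

theorem t_cmp (hP : S_POLAR) : S_CMP := by
  intro G _ l d U hU W hW
  have ev : ∀ (g : G) (ε : ℝ), 0 < ε → ∀ᶠ n in l, ∀ v,
      ‖op (U n g) (JJ (W n) v) - JJ (W n) (op (Up hP (W n) (U n g)) v)‖ ≤ ε * ‖v‖ := by
    intro g ε hε
    set δ := min (ε / 3) (1 / 4) with hδ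
    have hδ0 : 0 < δ := lt_min (by positivity) (by norm_num)
    filter_upwards [hW g δ hδ0] with n hn v
    refine (est hP (W n) (U n g) hδ0.le (min_le_right _ _) hn v).trans ?_
    have : δ ≤ ε / 3 := min_le_left _ _
    have : 3 * δ ≤ ε := by linarith
    gcongr
  refine ⟨fun n g => Up hP (W n) (U n g), fun n => JJ (W n), ?_, fun n v => JJ_mem (W n) v, ev⟩
  intro g h
  rw [Metric.tendsto_nhds]
  intro ε hε
  set η := ε / 5 with hη
  have hη0 : 0 < η := by positivity
  have h4 := (hU g h).eventually (gt_mem_nhds hη0)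
  filter_upwards [ev g η hη0, ev h η hη0, ev (g * h) η hη0, h4] with n a1 a2 a3 a4
  rw [Real.dist_eq, sub_zero, abs_of_nonneg (show 0 ≤ opn _ from norm_nonneg _)]
  have bd : opn ((Up hP (W n) (U n (g * h))).val - (Up hP (W n) (U n g)).val *
      (Up hP (W n) (U n h)).val) ≤ 4 * η := by
    refine ContinuousLinearMap.opNorm_le_bound _ (by positivity) fun v => ?_
    rw [map_sub, map_mul]
    have e0 : (Matrix.toEuclideanCLM (𝕜 := ℂ) (Up hP (W n) (U n (g * h))).val -
        Matrix.toEuclideanCLM (𝕜 := ℂ) (Up hP (W n) (U n g)).val *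
          Matrix.toEuclideanCLM (𝕜 := ℂ) (Up hP (W n) (U n h)).val) v =
        op (Up hP (W n) (U n (g * h))) v -
          op (Up hP (W n) (U n g)) (op (Up hP (W n) (U n h)) v) := rfl
    rw [e0, ← (JJ (W n)).norm_map, map_sub]
    set J := JJ (W n)
    set v' := op (Up hP (W n) (U n h)) v with hv'
    have nv' : ‖v'‖ = ‖v‖ := op_norm _ _
    have b1 := a3 v
    have b2 := a2 v
    have b3 := a1 v'
    rw [nv'] at b3
    have b4 : ‖op (U n (g * h)) (J v) - op (U n g) (op (U n h) (J v))‖ ≤ η * ‖v‖ := by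
      have e1 : op (U n (g * h)) (J v) - op (U n g) (op (U n h) (J v)) =
          Matrix.toEuclideanCLM (𝕜 := ℂ) ((U n (g * h)).val - (U n g).val * (U n h).val) (J v) := by
        rw [map_sub, map_mul]
        rfl
      rw [e1]
      refine (ContinuousLinearMap.le_opNorm _ _).trans ?_
      rw [J.norm_map]
      have : ‖Matrix.toEuclideanCLM (𝕜 := ℂ) ((U n (g * h)).val - (U n g).val * (U n h).val)‖ ≤ η :=
        a4.le
      gcongr
    have b5 : ‖op (U n g) (op (U n h) (J v)) - op (U n g) (J v')‖ ≤ η * ‖v‖ := by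
      rw [← map_sub, op_norm]
      exact b2
    have e2 : J (op (Up hP (W n) (U n (g * h))) v) - J (op (Up hP (W n) (U n g)) v') =
        -(op (U n (g * h)) (J v) - J (op (Up hP (W n) (U n (g * h))) v)) +
        (op (U n (g * h)) (J v) - op (U n g) (op (U n h) (J v))) +
        (op (U n g) (op (U n h) (J v)) - op (U n g) (J v')) +
        (op (U n g) (J v') - J (op (Up hP (W n) (U n g)) v')) := by abel
    rw [e2]
    have c1 := norm_add_le (-(op (U n (g * h)) (J v) - J (op (Up hP (W n) (U n (g * h))) v)))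
      (op (U n (g * h)) (J v) - op (U n g) (op (U n h) (J v)))
    rw [norm_neg] at c1
    have c2 := norm_add_le (-(op (U n (g * h)) (J v) - J (op (Up hP (W n) (U n (g * h))) v)) +
      (op (U n (g * h)) (J v) - op (U n g) (op (U n h) (J v))))
      (op (U n g) (op (U n h) (J v)) - op (U n g) (J v'))
    refine (norm_add_le _ _).trans ?_
    linarith
  refine lt_of_le_of_lt bd ?_
  rw [hη]
  linarith

end

end Pool.Agent.N170.MX
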